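import Pool.Agent.Lib.ALL_h67.QCN

/-!
# ALL, QC3a: a modification that dominates finitely many modifications
-/

set_option autoImplicit false

open AlgebraicGeometry CategoryTheory Limits

namespace Pool.Agent.ALLQC

open Pool.Agent.LU1G (IsGen cpt incV isIso_of_isPullback_id isIso_restrict_comp)

/-- The scheme-theoretic image of a reduced scheme is reduced. -/
theorem isReduced_image {X Y : Scheme.{0}} (f : X ⟶ Y) [QuasiCompact f] [IsReduced X] :
    IsReduced f.image := by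
  have h1 : IsSchemeTheoreticallyDominant f.toImage := by
    rw [isSchemeTheoreticallyDominant_iff]
    refine Scheme.IdealSheafData.ext_of_iSup_eq_top
      (fun U : Y.affineOpens => ⟨f.imageι ⁻¹ᵁ U.1, U.2.preimage f.imageι⟩) ?_ ?_
    · have h2 : (⨆ U : Y.affineOpens, f.imageι ⁻¹ᵁ U.1) = f.imageι ⁻¹ᵁ (⨆ U : Y.affineOpens, U.1) :=
        (Scheme.Hom.preimage_iSup _ _).symm
      change (⨆ U : Y.affineOpens, f.imageι ⁻¹ᵁ U.1) = ⊤
      rw [h2, iSup_affineOpens_eq_top]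
      rfl
    · intro U
      rw [Scheme.Hom.ker_apply]
      rw [Scheme.IdealSheafData.ideal_bot]
      exact (RingHom.injective_iff_ker_eq_bot _).1 (f.toImage_app_injective U)
  exact IsSchemeTheoreticallyDominant.isReduced f.toImage

/-- The scheme-theoretic image of an integral scheme is integral. -/
theorem isIntegral_image {X Y : Scheme.{0}} (f : X ⟶ Y) [QuasiCompact f] [IsIntegral X] :
    IsIntegral f.image := by
  have h1 : IsReduced f.image := isReduced_image f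
  have h2 : IrreducibleSpace f.image := by
    have h3 := ((IrreducibleSpace.isIrreducible_univ X).image f.toImage
      f.toImage.continuous.continuousOn).closure
    rw [Set.image_univ, f.toImage.denseRange.closure_range] at h3
    exact { isPreirreducible_univ := h3.2, toNonempty := ⟨h3.1.some⟩ }
  exact isIntegral_of_irreducibleSpace_of_isReduced _

/-- The section over an open set over which a morphism is an isomorphism. -/
theorem exists_section {X Y : Scheme.{0}} (π : Y ⟶ X) (W : X.Opens) (h : IsIso (π ∣_ W)) :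
    ∃ s : W.toScheme ⟶ Y, IsPullback s (𝟙 W.toScheme) π W.ι := by
  refine ⟨inv (π ∣_ W) ≫ (π ⁻¹ᵁ W).ι, ?_⟩
  have h1 : IsPullback (inv (π ∣_ W)) (𝟙 W.toScheme) (π ∣_ W) (𝟙 W.toScheme) :=
    IsPullback.of_horiz_isIso ⟨by simp⟩
  have h2 := h1.paste_horiz (isPullback_morphismRestrict π W).flip
  rwa [Category.id_comp] at h2

/-- The fibre product over an open set over which both morphisms are isomorphisms. -/
theorem isIso_pullback {X Y₁ Y₂ : Scheme.{0}} (π₁ : Y₁ ⟶ X) (π₂ : Y₂ ⟶ X) (W : X.Opens)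
    (h₁ : IsIso (π₁ ∣_ W)) (h₂ : IsIso (π₂ ∣_ W)) :
    IsIso ((pullback.fst π₁ π₂ ≫ π₁) ∣_ W) := by
  obtain ⟨s₁, hs₁⟩ := exists_section π₁ W h₁
  obtain ⟨s₂, hs₂⟩ := exists_section π₂ W h₂
  have e : s₁ ≫ π₁ = s₂ ≫ π₂ := by rw [hs₁.w, hs₂.w]
  refine isIso_of_isPullback_id _ W (pullback.lift s₁ s₂ e) ?_
  refine ⟨⟨by rw [pullback.lift_fst_assoc, hs₁.w]⟩, ⟨PullbackCone.IsLimit.mk _
    (fun t => t.snd) (fun t => ?_) (fun t => ?_) (fun t m _ hm => ?_)⟩⟩
  · have hc : t.fst ≫ pullback.fst π₁ π₂ ≫ π₁ = t.snd ≫ W.ι := t.condition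
    have hc₂ : t.fst ≫ pullback.snd π₁ π₂ ≫ π₂ = t.snd ≫ W.ι := by
      rw [← pullback.condition, hc]
    have key : ∀ {Y : Scheme.{0}} (π : Y ⟶ X) (s : W.toScheme ⟶ Y)
        (_ : IsPullback s (𝟙 W.toScheme) π W.ι) (g : t.pt ⟶ Y) (_ : g ≫ π = t.snd ≫ W.ι),
        t.snd ≫ s = g := by
      intro Y π s hs g hg
      have h3 : hs.lift g t.snd hg = t.snd := by
        have h4 := hs.lift_snd g t.snd hg
        rwa [Category.comp_id] at h4
      have h5 := hs.lift_fst g t.snd hg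
      rwa [h3] at h5
    apply pullback.hom_ext
    · rw [Category.assoc, pullback.lift_fst]
      exact key π₁ s₁ hs₁ _ (by rw [Category.assoc]; exact hc)
    · rw [Category.assoc, pullback.lift_snd]
      exact key π₂ s₂ hs₂ _ (by rw [Category.assoc]; exact hc₂)
  · rw [Category.comp_id]
  · rw [← hm, Category.comp_id]

/-- Points that specialise over an open set over which the morphism is an isomorphism. -/
theorem specializes_of_isIso {X Y : Scheme.{0}} (π : Y ⟶ X) (W : X.Opens) (h : IsIso (π ∣_ W))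
    (y y' : Y) (hy : π y ∈ W) (hy' : π y' ∈ W) (hs : π y ⤳ π y') : y ⤳ y' := by
  let a : (π ⁻¹ᵁ W).toScheme := ⟨y, hy⟩
  let a' : (π ⁻¹ᵁ W).toScheme := ⟨y', hy'⟩
  have h1 : (π ∣_ W) a ⤳ (π ∣_ W) a' := by
    have h2 : W.ι ((π ∣_ W) a) ⤳ W.ι ((π ∣_ W) a') := by
      have e : ∀ b : (π ⁻¹ᵁ W).toScheme, W.ι ((π ∣_ W) b) = π ((π ⁻¹ᵁ W).ι b) := by
        intro b
        rw [← Scheme.Hom.comp_apply, morphismRestrict_ι, Scheme.Hom.comp_apply]
      rw [e, e]
      exact hs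
    exact (W.ι.isOpenEmbedding.isInducing.specializes_iff).1 h2
  have h3 : a ⤳ a' := ((π ∣_ W).isOpenEmbedding.isInducing.specializes_iff).1 h1
  exact h3.map (π ⁻¹ᵁ W).ι.continuous

/-- QC3a: a modification that dominates two modifications. -/
theorem join {K : Type} [Field K] {X Y₁ Y₂ : Scheme.{0}} [IsIntegral X] [IsIntegral Y₁]
    [IsIntegral Y₂] (π₁ : Y₁ ⟶ X) (π₂ : Y₂ ⟶ X) [IsProper π₁] [IsProper π₂]
    (η : Spec (CommRingCat.of K) ⟶ X) (hη : IsGen η) (W₀ : X.Opens) (hW₀ : genericPoint X ∈ W₀)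
    (h₁ : IsIso (π₁ ∣_ W₀)) (h₂ : IsIso (π₂ ∣_ W₀)) :
    ∃ (Z : Scheme.{0}) (q₁ : Z ⟶ Y₁) (q₂ : Z ⟶ Y₂), IsIntegral Z ∧ q₁ ≫ π₁ = q₂ ≫ π₂ ∧
      IsProper (q₁ ≫ π₁) ∧
      ∀ W : X.Opens, IsIso (π₁ ∣_ W) → IsIso (π₂ ∣_ W) → IsIso ((q₁ ≫ π₁) ∣_ W) := by
  obtain ⟨η₁, hη₁, -⟩ := IsGen.lift π₁ W₀ hW₀ h₁ η hη
  obtain ⟨η₂, hη₂, -⟩ := IsGen.lift π₂ W₀ hW₀ h₂ η hη
  let P : Scheme.{0} := pullback π₁ π₂
  let ζ : Spec (CommRingCat.of K) ⟶ P := pullback.lift η₁ η₂ (by rw [hη₁, hη₂])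
  let q : P ⟶ X := pullback.fst π₁ π₂ ≫ π₁
  have hζq : ζ ≫ q = η := by
    change pullback.lift η₁ η₂ _ ≫ pullback.fst π₁ π₂ ≫ π₁ = η
    rw [pullback.lift_fst_assoc, hη₁]
  have hqp : IsProper q := inferInstanceAs (IsProper (pullback.fst π₁ π₂ ≫ π₁))
  have hint : IsIntegral ζ.image := isIntegral_image ζ
  refine ⟨ζ.image, ζ.imageι ≫ pullback.fst π₁ π₂, ζ.imageι ≫ pullback.snd π₁ π₂, hint, ?_, ?_, ?_⟩
  · rw [Category.assoc, Category.assoc, pullback.condition]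
  · rw [Category.assoc]
    exact inferInstanceAs (IsProper (ζ.imageι ≫ q))
  · intro W hW₁ hW₂
    rw [Category.assoc]
    have hq : IsIso (q ∣_ W) := isIso_pullback π₁ π₂ W hW₁ hW₂
    refine isIso_restrict_comp ζ.imageι q W hq ?_
    have hred : IsReduced (q ⁻¹ᵁ W).toScheme := isReduced_of_isOpenImmersion (q ∣_ W)
    have hcl : IsClosedImmersion (ζ.imageι ∣_ (q ⁻¹ᵁ W)) := inferInstance
    have hsurj : Surjective (ζ.imageι ∣_ (q ⁻¹ᵁ W)) := by
      refine ⟨fun y => ?_⟩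
      have hy : q y.1 ∈ W := y.2
      have hne : (W : Set X).Nonempty := ⟨_, hy⟩
      have hg : genericPoint X ∈ W :=
        ((genericPoint_spec X).mem_open_set_iff W.isOpen).mpr (by simpa using hne)
      let x : Spec (CommRingCat.of K) := IsLocalRing.closedPoint K
      have hx : q (ζ x) = genericPoint X := by
        have e1 : q (ζ x) = (ζ ≫ q) x := rfl
        rw [e1, hζq, LU2G.IsGen.range hη]
      have hspec : ζ x ⤳ y.1 := specializes_of_isIso q W hq _ _ (by rw [hx]; exact hg) hy (by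
        rw [hx]; exact genericPoint_specializes _)
      have hmem : y.1 ∈ Set.range ζ.imageι := by
        have hc : IsClosed (Set.range ζ.imageι) := ζ.imageι.isClosedEmbedding.isClosed_range
        refine hspec.mem_closed hc ⟨ζ.toImage x, ?_⟩
        rw [← Scheme.Hom.comp_apply, Scheme.Hom.toImage_imageι]
      obtain ⟨z, hz⟩ := hmem
      refine ⟨⟨z, ?_⟩, ?_⟩
      · change ζ.imageι z ∈ q ⁻¹ᵁ W
        rw [hz]
        exact y.2
      · apply Subtype.ext
        rw [morphismRestrict_base_coe]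
        exact hz
    exact isIso_of_isClosedImmersion_of_surjective _

/-- QC3a: a modification that dominates finitely many modifications. -/
theorem exists_dominating {K : Type} [Field K] {X : Scheme.{0}} [IsIntegral X]
    (η : Spec (CommRingCat.of K) ⟶ X) (hη : IsGen η) (W₀ : X.Opens) (hW₀ : genericPoint X ∈ W₀)
    (M : ℕ) : ∀ (Y : Fin M → Scheme.{0}) (π : ∀ j, Y j ⟶ X), (∀ j, IsIntegral (Y j)) →
      (∀ j, IsProper (π j)) → (∀ j, IsIso (π j ∣_ W₀)) →
      ∃ (Z : Scheme.{0}) (ρ : Z ⟶ X), IsIntegral Z ∧ IsProper ρ ∧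
        (∀ j, ∃ g : Z ⟶ Y j, g ≫ π j = ρ) ∧
        ∀ W : X.Opens, (∀ j, IsIso (π j ∣_ W)) → IsIso (ρ ∣_ W) := by
  induction M with
  | zero =>
    intro Y π _ _ _
    exact ⟨X, 𝟙 X, inferInstance, inferInstance, fun j => j.elim0, fun W _ => inferInstance⟩
  | succ M ih =>
    intro Y π hY hπ hiso
    obtain ⟨Z, ρ, hZ, hρ, hg, hZiso⟩ := ih (fun j => Y j.castSucc) (fun j => π j.castSucc)
      (fun j => hY _) (fun j => hπ _) (fun j => hiso _)
    have hY' := hY (Fin.last M)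
    have hπ' := hπ (Fin.last M)
    obtain ⟨Z', q₁, q₂, hZ', hq, hqp, hq'⟩ := join ρ (π (Fin.last M)) η hη W₀ hW₀
      (hZiso W₀ fun j => hiso _) (hiso _)
    refine ⟨Z', q₁ ≫ ρ, hZ', hqp, ?_, ?_⟩
    · intro j
      refine Fin.lastCases ⟨q₂, hq.symm⟩ (fun j => ?_) j
      obtain ⟨g, hg'⟩ := hg j
      exact ⟨q₁ ≫ g, by rw [Category.assoc, hg']⟩
    · intro W hW
      exact hq' W (hZiso W fun j => hW _) (hW _)

end Pool.Agent.ALLQC
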