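import Pool.Agent.Lib.ALL_h67.QCS
import Pool.Agent.Lib.ALL_h67.Join

/-!
# ALL, QC4c: every morphism from the spectrum of a valuation ring factors through the centre of a
valuation ring of the function field of a closed integral subscheme
-/

set_option autoImplicit false

open AlgebraicGeometry CategoryTheory Limits

namespace Pool.Agent.ALLQC

open Pool.Agent.LU1G (IsGen cpt incV factor_affine)

/-- The trace of a valuation ring on a subfield. -/
def traceV (V : Type) [CommRing V] [IsDomain V] [ValuationRing V] {K L : Type} [Field K] [Field L]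
    [Algebra V L] [IsFractionRing V L] (θ : K →+* L) : ValuationSubring K where
  toSubring := (algebraMap V L).range.comap θ
  mem_or_inv_mem' := by
    intro x
    rcases ValuationRing.isInteger_or_isInteger V (θ x) with ⟨a, ha⟩ | ⟨a, ha⟩
    · exact Or.inl ⟨a, ha⟩
    · exact Or.inr ⟨a, by rw [ha, map_inv₀]⟩

/-- The homomorphism from the trace to the valuation ring. -/
theorem exists_traceHom (V : Type) [CommRing V] [IsDomain V] [ValuationRing V] {K L : Type}
    [Field K] [Field L] [Algebra V L] [IsFractionRing V L] (θ : K →+* L) :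
    ∃ r : traceV V θ →+* V, ∀ x : traceV V θ, algebraMap V L (r x) = θ x := by
  have hinj : Function.Injective (algebraMap V L) := IsFractionRing.injective V L
  let e : V ≃+* (algebraMap V L).range :=
    RingEquiv.ofBijective (algebraMap V L).rangeRestrict
      ⟨fun a b h => hinj (congrArg Subtype.val h), (algebraMap V L).rangeRestrict_surjective⟩
  let s : traceV V θ →+* (algebraMap V L).range :=
    (θ.comp (traceV V θ).subtype).codRestrict _ fun x => x.2
  refine ⟨e.symm.toRingHom.comp s, fun x => ?_⟩
  have h1 : e (e.symm (s x)) = s x := e.apply_symm_apply _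
  exact congrArg Subtype.val h1

/-- QC4c. -/
theorem exists_factor {Z : Scheme.{0}} [IsIntegral Z] (V : Type) [CommRing V] [IsDomain V]
    [ValuationRing V] (c : Spec (CommRingCat.of V) ⟶ Z) [IsDominant c] :
    ∃ (V₀ : ValuationSubring Z.functionField) (c₀ : Spec (CommRingCat.of V₀) ⟶ Z)
      (r : Spec (CommRingCat.of V) ⟶ Spec (CommRingCat.of V₀)),
      incV V₀ ≫ c₀ = Z.fromSpecStalk (genericPoint Z) ∧ r ≫ c₀ = c := by
  obtain ⟨U, hU, hzU, -⟩ := exists_isAffineOpen_mem_and_subset (U := ⊤)
    (x := c (IsLocalRing.closedPoint V)) trivial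
  obtain ⟨φ, hφ⟩ := factor_affine U hU c hzU
  have hne : Nonempty U := ⟨⟨_, hzU⟩⟩
  have hfr := functionField_isFractionRing_of_isAffineOpen Z U hU
  have hgU : genericPoint Z ∈ U :=
    ((genericPoint_spec Z).mem_open_set_iff U.isOpen).mpr (by
      have hne' : (U : Set Z).Nonempty := ⟨_, hzU⟩
      simpa using hne')
  have hdomA : IsDomain Γ(Z, U) := inferInstance
  have hdense : DenseRange (Spec.map (CommRingCat.ofHom φ)) := by
    have h1 : closure (hU.fromSpec '' Set.range (Spec.map (CommRingCat.ofHom φ))) = Set.univ := by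
      rw [← Set.range_comp]
      have h2 : (hU.fromSpec ∘ Spec.map (CommRingCat.ofHom φ) : _ → Z) = c := by
        rw [← hφ]
        rfl
      rw [h2]
      exact c.denseRange.closure_range
    rw [denseRange_iff_closure_range,
      hU.fromSpec.isOpenEmbedding.isInducing.closure_eq_preimage_closure_image, h1,
      Set.preimage_univ]
  have hinj : Function.Injective φ := by
    rw [RingHom.injective_iff_ker_eq_bot]
    have h1 : RingHom.ker φ ≤ nilradical Γ(Z, U) :=
      (PrimeSpectrum.denseRange_comap_iff_ker_le_nilRadical φ).1 hdense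
    rw [nilradical_eq_zero] at h1
    exact le_bot_iff.1 h1
  let L : Type := FractionRing V
  let ι : Γ(Z, U) →+* L := (algebraMap V L).comp φ
  have hι : Function.Injective ι := (IsFractionRing.injective V L).comp hinj
  let θ : Z.functionField →+* L := IsFractionRing.lift (A := Γ(Z, U)) hι
  have hθ : ∀ a : Γ(Z, U), θ (algebraMap Γ(Z, U) Z.functionField a) = algebraMap V L (φ a) :=
    fun a => IsFractionRing.lift_algebraMap hι a
  obtain ⟨r, hr⟩ := exists_traceHom V θ
  let φ₀ : Γ(Z, U) →+* traceV V θ :=
    (algebraMap Γ(Z, U) Z.functionField).codRestrict (traceV V θ)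
      fun a => ⟨φ a, (hθ a).symm⟩
  refine ⟨traceV V θ, Spec.map (CommRingCat.ofHom φ₀) ≫ hU.fromSpec,
    Spec.map (CommRingCat.ofHom r), ?_, ?_⟩
  · rw [← hU.fromSpecStalk_eq_fromSpecStalk hgU, IsAffineOpen.fromSpecStalk,
      ← Category.assoc, ← Spec.map_comp]
    rfl
  · rw [← hφ, ← Category.assoc, ← Spec.map_comp]
    have h1 : CommRingCat.ofHom φ₀ ≫ CommRingCat.ofHom r = CommRingCat.ofHom φ := by
      have h2 : r.comp φ₀ = φ := by
        ext a
        apply IsFractionRing.injective V L
        have h3 := hr (φ₀ a)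
        rw [RingHom.comp_apply, h3]
        exact hθ a
      rw [← h2]
      rfl
    rw [h1]

end Pool.Agent.ALLQC
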