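import Pool.Agent.Lib.ALL_h67.QCN
import Pool.Agent.Lib.LU2G.AllS
import Pool.Agent.Lib.LU2G.Defs

/-!
# ALL: finite resolving systems, final form
-/

set_option autoImplicit false

open AlgebraicGeometry CategoryTheory

namespace Pool.Agent.ALLQC

open Pool.Agent.LU1G (IsGen cpt incV SmoothAt factor_affine frac_affine)
open Pool.Agent.LU2G (const_mem gen_unique consts coarser IsSmoothAt smoothAt_generic)

/-- The open set of the points at which a morphism is smooth. -/
def smoothOpens {Y S : Scheme.{0}} (g : Y ⟶ S) : Y.Opens :=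
  ⨆ U : {U : Y.Opens // AlgebraicGeometry.Smooth (U.ι ≫ g)}, U.1

theorem mem_smoothOpens {Y S : Scheme.{0}} (g : Y ⟶ S) (y : Y) :
    y ∈ smoothOpens g ↔ IsSmoothAt g y := by
  unfold smoothOpens
  rw [TopologicalSpace.Opens.mem_iSup]
  constructor
  · rintro ⟨U, hU⟩
    exact ⟨U.1, hU, U.2⟩
  · rintro ⟨U, hU, hs⟩
    exact ⟨⟨U, hs⟩, hU⟩

/-- Finite resolving systems for `N`-tuples of valuation rings. -/
theorem exists_finite_system {k : Type} [Field k] [PerfectField k] (X : Scheme.{0}) [IsIntegral X]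
    [CompactSpace X] (f : X ⟶ Spec (CommRingCat.of k)) [LocallyOfFiniteType f] (N : ℕ)
    (hall : ∀ (V : Fin N → ValuationSubring X.functionField)
      (c : ∀ i, Spec (CommRingCat.of (V i)) ⟶ X)
      (_ : ∀ i, Spec.map (CommRingCat.ofHom (algebraMap (V i) X.functionField)) ≫
        c i = X.fromSpecStalk (genericPoint X)),
      ∃ (Y : Scheme.{0}) (π : Y ⟶ X), IsIntegral Y ∧ IsProper π ∧
      (∀ W : X.Opens, (∀ (i : Fin N) (V' : ValuationSubring X.functionField) (h : V i ≤ V'),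
        V' ≠ ⊤ → (coarser h ≫ c i) (IsLocalRing.closedPoint V') ∈ W →
          IsSmoothAt f ((coarser h ≫ c i) (IsLocalRing.closedPoint V'))) → IsIso (π ∣_ W)) ∧
      ∀ i, ∃ c' : Spec (CommRingCat.of (V i)) ⟶ Y, c' ≫ π = c i ∧
        IsSmoothAt (π ≫ f) (c' (IsLocalRing.closedPoint (V i)))) :
    ∃ (M : ℕ) (Y : Fin M → Scheme.{0}) (π : ∀ j, Y j ⟶ X),
      (∀ j, IsIntegral (Y j) ∧ IsProper (π j) ∧
        ∀ W : X.Opens, (∀ x ∈ W, IsSmoothAt f x) → IsIso (π j ∣_ W)) ∧
      ∀ (V : Fin N → ValuationSubring X.functionField)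
        (c : ∀ i, Spec (CommRingCat.of (V i)) ⟶ X),
        (∀ i, Spec.map (CommRingCat.ofHom (algebraMap (V i) X.functionField)) ≫
          c i = X.fromSpecStalk (genericPoint X)) →
        ∃ j, ∀ i, ∃ c' : Spec (CommRingCat.of (V i)) ⟶ Y j, c' ≫ π j = c i ∧
          IsSmoothAt (π j ≫ f) (c' (IsLocalRing.closedPoint (V i))) := by
  classical
  let _ : Algebra k X.functionField := (consts f).toAlgebra
  have hη : IsGen (K := X.functionField) (X.fromSpecStalk (genericPoint X)) := by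
    refine ⟨RingEquiv.refl _, ?_⟩
    have h1 : (CommRingCat.ofHom (RingEquiv.refl X.functionField).toRingHom) =
        𝟙 (CommRingCat.of X.functionField) := rfl
    rw [h1, Spec.map_id]
    exact (Category.id_comp _).symm
  have hηf : X.fromSpecStalk (genericPoint X) ≫ f =
      Spec.map (CommRingCat.ofHom (algebraMap k X.functionField)) := by
    have h1 : CommRingCat.ofHom (algebraMap k X.functionField) =
        Spec.preimage (X.fromSpecStalk (genericPoint X) ≫ f) := rfl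
    rw [h1, Spec.map_preimage]
  obtain ⟨W₀, hW₀, hW₀s⟩ := smoothAt_generic k X f
  let I : Type := Σ' (V : Fin N → ValuationSubring X.functionField)
    (c : ∀ i, Spec (CommRingCat.of (V i)) ⟶ X),
    ∀ i, incV (V i) ≫ c i = X.fromSpecStalk (genericPoint X)
  choose Y π hY hπ hiso hc using fun t : I => hall t.1 t.2.1 t.2.2
  have hiso' : ∀ (t : I) (W : X.Opens), (∀ x ∈ W, IsSmoothAt f x) → IsIso (π t ∣_ W) :=
    fun t W hW => hiso t W fun i V' h _ hmem => hW _ hmem
  obtain ⟨J, hJ⟩ := finite_system_tuple X f (X.fromSpecStalk (genericPoint X)) hη hηf (ι := Fin N)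
    Y π (fun t => by have := hπ t; infer_instance)
    (fun t => ⟨W₀, hW₀, hiso' t W₀ fun x hx => ⟨W₀, hx, hW₀s⟩⟩)
    (fun t => smoothOpens (π t ≫ f)) (fun V c h => by
      refine ⟨⟨V, c, h⟩, fun n => ?_⟩
      obtain ⟨c', hc', hs⟩ := hc ⟨V, c, h⟩ n
      exact ⟨c', hc', (mem_smoothOpens _ _).2 hs⟩)
  let e : Fin J.card ≃ J := J.equivFin.symm
  refine ⟨J.card, fun j => Y (e j), fun j => π (e j), fun j => ⟨hY _, hπ _, hiso' _⟩, ?_⟩
  intro V c h
  obtain ⟨t, ht, hgood⟩ := hJ V c h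
  have key : ∀ j, e j = ⟨t, ht⟩ → ∀ i, ∃ c' : Spec (CommRingCat.of (V i)) ⟶ Y (e j),
      c' ≫ π (e j) = c i ∧ IsSmoothAt (π (e j) ≫ f) (c' (IsLocalRing.closedPoint (V i))) := by
    intro j hj i
    rw [hj]
    obtain ⟨c', hc', hs⟩ := hgood i
    exact ⟨c', hc', (mem_smoothOpens _ _).1 hs⟩
  exact ⟨e.symm ⟨t, ht⟩, key _ (e.apply_symm_apply _)⟩

end Pool.Agent.ALLQC
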