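import Pool.Agent.Lib.ALL_h67.Points
import Pool.Agent.Lib.ALL_h26.FinB

/-!
# ALL: finite resolving systems in large characteristic
-/

set_option autoImplicit false

open AlgebraicGeometry CategoryTheory

namespace Pool.Agent.ALLQC

open Pool.Agent.LU2G (consts IsSmoothAt)
open Pool.Agent.ALLF (RealCaseFull exists_smooth_centres_all)

/-- Finite resolving systems for `N`-tuples of valuation rings in large characteristic. -/
theorem exists_finite_system_all {b : ℕ → ℕ} (hb : Monotone b) (p : ℕ) (k : Type) [Field k]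
    [IsAlgClosed k] (hreal : RealCaseFull b p k)
    (X : Scheme.{0}) [IsIntegral X] [CompactSpace X] (f : X ⟶ Spec (CommRingCat.of k))
    [LocallyOfFiniteType f] (n : ℕ)
    (hn : @Algebra.trdeg k X.functionField _ _ (consts f).toAlgebra = n) (hnp : b n < p)
    (N : ℕ) :
    ∃ (M : ℕ) (Y : Fin M → Scheme.{0}) (π : ∀ j, Y j ⟶ X),
      (∀ j, IsIntegral (Y j) ∧ IsProper (π j) ∧
        ∀ W : X.Opens, (∀ x ∈ W, IsSmoothAt f x) → IsIso (π j ∣_ W)) ∧
      ∀ (V : Fin N → ValuationSubring X.functionField)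
        (c : ∀ i, Spec (CommRingCat.of (V i)) ⟶ X),
        (∀ i, Spec.map (CommRingCat.ofHom (algebraMap (V i) X.functionField)) ≫
          c i = X.fromSpecStalk (genericPoint X)) →
        ∃ j, ∀ i, ∃ c' : Spec (CommRingCat.of (V i)) ⟶ Y j, c' ≫ π j = c i ∧
          IsSmoothAt (π j ≫ f) (c' (IsLocalRing.closedPoint (V i))) :=
  exists_finite_system X f N fun V c hc =>
    exists_smooth_centres_all hb p k hreal X f n hn hnp N V c hc

/-- Finite resolving systems for `N`-tuples of points in large characteristic. -/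
theorem exists_finite_system_points_all {b : ℕ → ℕ} (hb : Monotone b) (p : ℕ) (k : Type) [Field k]
    [IsAlgClosed k] (hreal : RealCaseFull b p k)
    (X : Scheme.{0}) [IsIntegral X] [CompactSpace X] (f : X ⟶ Spec (CommRingCat.of k))
    [LocallyOfFiniteType f] (n : ℕ)
    (hn : @Algebra.trdeg k X.functionField _ _ (consts f).toAlgebra = n) (hnp : b n < p)
    (N : ℕ) :
    ∃ (Z : Scheme.{0}) (ρ : Z ⟶ X) (M : ℕ) (Y : Fin M → Scheme.{0}) (π : ∀ j, Y j ⟶ X)
      (g : ∀ j, Z ⟶ Y j),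
      IsIntegral Z ∧ IsProper ρ ∧
      (∀ W : X.Opens, (∀ x ∈ W, IsSmoothAt f x) → IsIso (ρ ∣_ W)) ∧
      (∀ j, IsIntegral (Y j) ∧ IsProper (π j) ∧ g j ≫ π j = ρ ∧
        ∀ W : X.Opens, (∀ x ∈ W, IsSmoothAt f x) → IsIso (π j ∣_ W)) ∧
      (∀ z : Fin N → Z, ∃ j, ∀ i, IsSmoothAt (π j ≫ f) (g j (z i))) ∧
      ∀ (V : Fin N → ValuationSubring X.functionField)
        (c : ∀ i, Spec (CommRingCat.of (V i)) ⟶ X),
        (∀ i, Spec.map (CommRingCat.ofHom (algebraMap (V i) X.functionField)) ≫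
          c i = X.fromSpecStalk (genericPoint X)) →
        ∃ j, ∀ i, ∃ c' : Spec (CommRingCat.of (V i)) ⟶ Y j, c' ≫ π j = c i ∧
          IsSmoothAt (π j ≫ f) (c' (IsLocalRing.closedPoint (V i))) :=
  exists_finite_system_points X f N fun V c hc =>
    exists_smooth_centres_all hb p k hreal X f n hn hnp N V c hc

end Pool.Agent.ALLQC
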