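import Pool.Agent.Lib.ALL_h67.Join
import Pool.Agent.Lib.ALL_h67.Final

/-!
# ALL, QC3: finite resolving systems for tuples of points
-/

set_option autoImplicit false

open AlgebraicGeometry CategoryTheory Limits

namespace Pool.Agent.ALLQC

open Pool.Agent.LU1G (IsGen cpt incV lift_of_proper)
open Pool.Agent.LU2G (const_mem gen_unique lift_unique consts coarser IsSmoothAt smoothAt_generic)

/-- Every point of an integral scheme is the centre of a valuation ring of the function field. -/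
theorem exists_centre {K : Type} [Field K] {Z : Scheme.{0}} [IsIntegral Z]
    (η : Spec (CommRingCat.of K) ⟶ Z) (hη : IsGen η) (z : Z) :
    ∃ (V : ValuationSubring K) (c : Spec (CommRingCat.of V) ⟶ Z), incV V ≫ c = η ∧
      c (cpt V) = z := by
  obtain ⟨e, rfl⟩ := hη
  let φ : Z.presheaf.stalk z →+* K :=
    e.toRingHom.comp (Z.presheaf.stalkSpecializes (genericPoint_specializes z)).hom
  obtain ⟨A, h, hloc⟩ := IsLocalRing.exists_factor_valuationRing φ
  let φ' : Z.presheaf.stalk z →+* A := φ.codRestrict A.toSubring h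
  have hloc' : IsLocalHom φ' := hloc
  refine ⟨A, Spec.map (CommRingCat.ofHom φ') ≫ Z.fromSpecStalk z, ?_, ?_⟩
  · have h1 : incV A ≫ Spec.map (CommRingCat.ofHom φ') = Spec.map (CommRingCat.ofHom φ) := by
      rw [← Spec.map_comp]
      rfl
    rw [← Category.assoc, h1]
    have h2 : Spec.map (CommRingCat.ofHom φ) = Spec.map (CommRingCat.ofHom e.toRingHom) ≫
        Spec.map (Z.presheaf.stalkSpecializes (genericPoint_specializes z)) := by
      rw [← Spec.map_comp]
      rfl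
    rw [h2, Category.assoc, Scheme.SpecMap_stalkSpecializes_fromSpecStalk]
  · have h1 : (Spec.map (CommRingCat.ofHom φ')) (cpt A) =
        IsLocalRing.closedPoint (Z.presheaf.stalk z) := IsLocalRing.comap_closedPoint φ'
    rw [Scheme.Hom.comp_apply, h1, Scheme.fromSpecStalk_closedPoint]

/-- QC3: finite resolving systems for `N`-tuples of points. -/
theorem exists_finite_system_points {k : Type} [Field k] [PerfectField k] (X : Scheme.{0})
    [IsIntegral X] [CompactSpace X] (f : X ⟶ Spec (CommRingCat.of k)) [LocallyOfFiniteType f]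
    (N : ℕ)
    (hall : ∀ (V : Fin N → ValuationSubring X.functionField)
      (c : ∀ i, Spec (CommRingCat.of (V i)) ⟶ X)
      (_ : ∀ i, Spec.map (CommRingCat.ofHom (algebraMap (V i) X.functionField)) ≫
        c i = X.fromSpecStalk (genericPoint X)),
      ∃ (Y : Scheme.{0}) (π : Y ⟶ X), IsIntegral Y ∧ IsProper π ∧
      (∀ W : X.Opens, (∀ (i : Fin N) (V' : ValuationSubring X.functionField) (h : V i ≤ V'),
        V' ≠ ⊤ → (coarser h ≫ c i) (IsLocalRing.closedPoint V') ∈ W →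
          IsSmoothAt f ((coarser h ≫ c i) (IsLocalRing.closedPoint V'))) → IsIso (π ∣_ W)) ∧
      ∀ i, ∃ c' : Spec (CommRingCat.of (V i)) ⟶ Y, c' ≫ π = c i ∧
        IsSmoothAt (π ≫ f) (c' (IsLocalRing.closedPoint (V i)))) :
    ∃ (Z : Scheme.{0}) (ρ : Z ⟶ X) (M : ℕ) (Y : Fin M → Scheme.{0}) (π : ∀ j, Y j ⟶ X)
      (g : ∀ j, Z ⟶ Y j),
      IsIntegral Z ∧ IsProper ρ ∧
      (∀ W : X.Opens, (∀ x ∈ W, IsSmoothAt f x) → IsIso (ρ ∣_ W)) ∧
      (∀ j, IsIntegral (Y j) ∧ IsProper (π j) ∧ g j ≫ π j = ρ ∧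
        ∀ W : X.Opens, (∀ x ∈ W, IsSmoothAt f x) → IsIso (π j ∣_ W)) ∧
      (∀ z : Fin N → Z, ∃ j, ∀ i, IsSmoothAt (π j ≫ f) (g j (z i))) ∧
      ∀ (V : Fin N → ValuationSubring X.functionField)
        (c : ∀ i, Spec (CommRingCat.of (V i)) ⟶ X),
        (∀ i, Spec.map (CommRingCat.ofHom (algebraMap (V i) X.functionField)) ≫
          c i = X.fromSpecStalk (genericPoint X)) →
        ∃ j, ∀ i, ∃ c' : Spec (CommRingCat.of (V i)) ⟶ Y j, c' ≫ π j = c i ∧
          IsSmoothAt (π j ≫ f) (c' (IsLocalRing.closedPoint (V i))) := by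
  classical
  have hη : IsGen (K := X.functionField) (X.fromSpecStalk (genericPoint X)) := by
    refine ⟨RingEquiv.refl _, ?_⟩
    have h1 : (CommRingCat.ofHom (RingEquiv.refl X.functionField).toRingHom) =
        𝟙 (CommRingCat.of X.functionField) := rfl
    rw [h1, Spec.map_id]
    exact (Category.id_comp _).symm
  obtain ⟨W₀, hW₀, hW₀s⟩ := smoothAt_generic k X f
  obtain ⟨M, Y, π, hY, hV⟩ := exists_finite_system X f N hall
  have hW₀' : ∀ x ∈ W₀, IsSmoothAt f x := fun x hx => ⟨W₀, hx, hW₀s⟩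
  obtain ⟨Z, ρ, hZ, hρ, hg, hiso⟩ := exists_dominating (X.fromSpecStalk (genericPoint X)) hη W₀ hW₀
    M Y π (fun j => (hY j).1) (fun j => (hY j).2.1) (fun j => (hY j).2.2 W₀ hW₀')
  choose g hg using hg
  have hρiso : ∀ W : X.Opens, (∀ x ∈ W, IsSmoothAt f x) → IsIso (ρ ∣_ W) :=
    fun W hW => hiso W fun j => (hY j).2.2 W hW
  refine ⟨Z, ρ, M, Y, π, g, hZ, hρ, hρiso,
    fun j => ⟨(hY j).1, (hY j).2.1, hg j, (hY j).2.2⟩, ?_, hV⟩
  intro z
  obtain ⟨ηZ, hηZ, hηZg⟩ := IsGen.lift ρ W₀ hW₀ (hρiso W₀ hW₀') _ hη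
  choose V c hc hcz using fun i => exists_centre ηZ hηZg (z i)
  obtain ⟨j, hj⟩ := hV V (fun i => c i ≫ ρ) (fun i => by
    have h1 : incV (V i) ≫ c i ≫ ρ = X.fromSpecStalk (genericPoint X) := by
      rw [← Category.assoc, hc, hηZ]
    exact h1)
  refine ⟨j, fun i => ?_⟩
  obtain ⟨c', hc', hs⟩ := hj i
  have hπj := (hY j).2.1
  have hπiso := (hY j).2.2 W₀ hW₀'
  have heq : c' = c i ≫ g j := by
    refine lift_unique (π j) (V i) _ _ ?_ ?_
    · rw [hc', Category.assoc, hg]
    · refine gen_unique (π j) W₀ hW₀ hπiso _ _ ?_ ?_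
      · rw [Category.assoc, hc', ← Category.assoc, hc, hηZ]
        exact hη
      · rw [Category.assoc, hc', Category.assoc, Category.assoc, hg]
  rw [heq] at hs
  have h2 : (c i ≫ g j) (IsLocalRing.closedPoint (V i)) = g j (z i) := by
    rw [Scheme.Hom.comp_apply]
    exact congrArg (g j) (hcz i)
  rw [h2] at hs
  exact hs

end Pool.Agent.ALLQC
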