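import Mathlib

/-!
# ALL, QC1: quasi-compactness of the space of valuation rings
-/

set_option autoImplicit false

namespace Pool.Agent.ALLQC

/-- The limit of a family of valuation rings along an ultrafilter. -/
def ulim {K : Type*} [Field K] {J : Type*} (U : Ultrafilter J) (W : J → ValuationSubring K) :
    ValuationSubring K where
  carrier := {x | ∀ᶠ j in (U : Filter J), x ∈ W j}
  mul_mem' := by
    intro a b ha hb
    exact (ha.and hb).mono fun j h => (W j).mul_mem _ _ h.1 h.2
  one_mem' := Filter.Eventually.of_forall fun j => (W j).one_mem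
  add_mem' := by
    intro a b ha hb
    exact (ha.and hb).mono fun j h => (W j).add_mem _ _ h.1 h.2
  zero_mem' := Filter.Eventually.of_forall fun j => (W j).zero_mem
  neg_mem' := by
    intro a ha
    exact ha.mono fun j h => (W j).neg_mem _ h
  mem_or_inv_mem' := by
    intro x
    exact Ultrafilter.eventually_or.1
      (Filter.Eventually.of_forall fun j => (W j).mem_or_inv_mem x)

theorem mem_ulim {K : Type*} [Field K] {J : Type*} (U : Ultrafilter J)
    (W : J → ValuationSubring K) (x : K) : x ∈ ulim U W ↔ ∀ᶠ j in (U : Filter J), x ∈ W j :=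
  Iff.rfl

/-- QC1: if every valuation ring that contains `B` contains one of the finite sets `A i`, then it
contains one of finitely many of them. -/
theorem exists_finset {K : Type*} [Field K] {I : Type*} (B : Set K) (A : I → Set K)
    (hA : ∀ i, (A i).Finite)
    (h : ∀ V : ValuationSubring K, (∀ b ∈ B, b ∈ V) → ∃ i, ∀ a ∈ A i, a ∈ V) :
    ∃ J : Finset I, ∀ V : ValuationSubring K, (∀ b ∈ B, b ∈ V) → ∃ i ∈ J, ∀ a ∈ A i, a ∈ V := by
  classical
  by_contra hno
  push Not at hno
  choose W hWB hW using hno
  let U : Ultrafilter (Finset I) := Ultrafilter.of Filter.atTop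
  have hU : (U : Filter (Finset I)) ≤ Filter.atTop := Ultrafilter.of_le _
  obtain ⟨i, hi⟩ := h (ulim U W) fun b hb =>
    (mem_ulim U W b).2 (Filter.Eventually.of_forall fun J => hWB J b hb)
  have h1 : ∀ᶠ J in (U : Filter (Finset I)), ∀ a ∈ A i, a ∈ W J :=
    (hA i).eventually_all.2 fun a ha => (mem_ulim U W a).1 (hi a ha)
  have h2 : ∀ᶠ J in (U : Filter (Finset I)), i ∈ J :=
    hU ((Filter.eventually_ge_atTop ({i} : Finset I)).mono fun J hJ =>
      hJ (Finset.mem_singleton_self i))
  obtain ⟨J, hJ1, hJ2⟩ := (h1.and h2).exists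
  obtain ⟨a, ha, ha'⟩ := hW J i hJ2
  exact ha' (hJ1 a ha)

end Pool.Agent.ALLQC
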