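import Pool.Agent.Lib.ALL_h67.QC1
import Pool.Agent.Lib.LU2G.ChainS

/-!
# ALL, QC2: finite resolving systems
-/

set_option autoImplicit false

open AlgebraicGeometry CategoryTheory

namespace Pool.Agent.ALLQC

open Pool.Agent.LU1G (IsGen cpt incV SmoothAt factor_affine frac_affine)
open Pool.Agent.LU2G (const_mem gen_unique)

/-- The closed point of the spectrum of a valuation ring is mapped into an affine open subset by
the morphism induced by a ring homomorphism. -/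
theorem fromSpec_mem {X : Scheme.{0}} (U : X.Opens) (hU : IsAffineOpen U) {R : Type}
    [CommRing R] (ψ : Γ(X, U) →+* R) (x : Spec (CommRingCat.of R)) :
    (Spec.map (CommRingCat.ofHom ψ) ≫ hU.fromSpec) x ∈ U := by
  have h1 : (Spec.map (CommRingCat.ofHom ψ) ≫ hU.fromSpec) x =
      hU.fromSpec (Spec.map (CommRingCat.ofHom ψ) x) := rfl
  rw [h1]
  have h2 : hU.fromSpec (Spec.map (CommRingCat.ofHom ψ) x) ∈ Set.range hU.fromSpec := ⟨_, rfl⟩
  rw [hU.range_fromSpec] at h2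
  exact h2

/-- Two morphisms from the spectrum of a valuation ring to a scheme agree if they agree at the
generic point and both map the closed point into the same affine open set. -/
theorem eq_of_affine {K : Type} [Field K] {X : Scheme.{0}} (U : X.Opens) (hU : IsAffineOpen U)
    (V : ValuationSubring K) (c c' : Spec (CommRingCat.of V) ⟶ X) (hc : c (cpt V) ∈ U)
    (hc' : c' (cpt V) ∈ U) (h : incV V ≫ c = incV V ≫ c') : c = c' := by
  obtain ⟨φ, hφ⟩ := factor_affine U hU c hc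
  obtain ⟨φ', hφ'⟩ := factor_affine U hU c' hc'
  have h1 : Spec.map (CommRingCat.ofHom ((algebraMap V K).comp φ)) =
      Spec.map (CommRingCat.ofHom ((algebraMap V K).comp φ')) := by
    rw [← cancel_mono hU.fromSpec]
    have e : ∀ θ : Γ(X, U) →+* V, Spec.map (CommRingCat.ofHom ((algebraMap V K).comp θ)) ≫
        hU.fromSpec = incV V ≫ Spec.map (CommRingCat.ofHom θ) ≫ hU.fromSpec := by
      intro θ
      rw [← Category.assoc, ← Spec.map_comp]
      rfl
    rw [e, e, hφ, hφ', h]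
  have h2 : (algebraMap V K).comp φ = (algebraMap V K).comp φ' :=
    congrArg CommRingCat.Hom.hom (Spec.map_injective h1)
  have h3 : φ = φ' := by
    ext x
    exact DFunLike.congr_fun h2 x
  rw [← hφ, ← hφ', h3]

/-- The finite set of conditions on a valuation ring that come from an affine chart. -/
theorem exists_chart {k K : Type} [Field k] [Field K] [Algebra k K] {Y : Scheme.{0}}
    (g : Y ⟶ Spec (CommRingCat.of k)) [LocallyOfFiniteType g]
    (η : Spec (CommRingCat.of K) ⟶ Y) (hηg : η ≫ g = Spec.map (CommRingCat.ofHom (algebraMap k K)))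
    (N : Y.Opens) (V : ValuationSubring K) (c : Spec (CommRingCat.of V) ⟶ Y)
    (hc : incV V ≫ c = η) (hN : c (cpt V) ∈ N) :
    ∃ A : Set K, A.Finite ∧ (∀ a ∈ A, a ∈ V) ∧
      ∀ V' : ValuationSubring K, (∀ a : k, algebraMap k K a ∈ V') → (∀ a ∈ A, a ∈ V') →
        ∃ c' : Spec (CommRingCat.of V') ⟶ Y, incV V' ≫ c' = η ∧ c' (cpt V') ∈ N := by
  obtain ⟨U, hU, hcU, hUN⟩ := exists_isAffineOpen_mem_and_subset (U := N) (x := c (cpt V)) hN
  obtain ⟨φ, hφ⟩ := factor_affine U hU c hcU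
  let A : Type := Γ(Y, U)
  let _ : CommRing A := inferInstanceAs (CommRing Γ(Y, U))
  let φk : k →+* A := (Spec.preimage (hU.fromSpec ≫ g)).hom
  let _ : Algebra k A := φk.toAlgebra
  have hφk : Spec.map (CommRingCat.ofHom φk) = hU.fromSpec ≫ g := by
    rw [CommRingCat.ofHom_hom, Spec.map_preimage]
  have hft : Algebra.FiniteType k A := by
    have h1 : LocallyOfFiniteType (Spec.map (CommRingCat.ofHom φk)) := by
      rw [hφk]
      infer_instance
    exact (HasRingHomProperty.Spec_iff (P := @LocallyOfFiniteType)).mp h1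
  let ψ : A →+* K := (algebraMap V K).comp φ
  have hψ : Spec.map (CommRingCat.ofHom ψ) ≫ hU.fromSpec = η := by
    rw [← hc, ← hφ, ← Category.assoc, ← Spec.map_comp]
    rfl
  have hψk : ∀ a : k, ψ (φk a) = algebraMap k K a := by
    have h1 : Spec.map (CommRingCat.ofHom (algebraMap k K)) =
        Spec.map (CommRingCat.ofHom (ψ.comp φk)) := by
      rw [← hηg, ← hψ, Category.assoc, ← hφk, ← Spec.map_comp]
      rfl
    have h2 : algebraMap k K = ψ.comp φk := congrArg CommRingCat.Hom.hom (Spec.map_injective h1)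
    intro a
    rw [h2]
    rfl
  let ψ' : A →ₐ[k] K := { ψ with commutes' := hψk }
  obtain ⟨S, hS⟩ := hft.out
  refine ⟨ψ '' (S : Set A), S.finite_toSet.image _, ?_, ?_⟩
  · rintro _ ⟨a, -, rfl⟩
    exact (φ a).2
  · intro V' hk hA
    have hmem : ∀ a : A, ψ a ∈ V' := by
      let V'a : Subalgebra k K := { V'.toSubring with algebraMap_mem' := hk }
      have h1 : (⊤ : Subalgebra k A) ≤ V'a.comap ψ' := by
        rw [← hS]
        exact Algebra.adjoin_le fun s hs => hA _ ⟨s, hs, rfl⟩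
      intro a
      exact h1 (Algebra.mem_top (R := k) (x := a))
    let φ' : A →+* V' := ψ.codRestrict V' hmem
    refine ⟨Spec.map (CommRingCat.ofHom φ') ≫ hU.fromSpec, ?_, hUN (fromSpec_mem U hU φ' _)⟩
    rw [← hψ, ← Category.assoc, ← Spec.map_comp]
    rfl

/-- QC2 for the valuation rings with a centre on an affine open subset. -/
theorem finite_affine {k K : Type} [Field k] [Field K] [Algebra k K] (X : Scheme.{0})
    [IsIntegral X] (f : X ⟶ Spec (CommRingCat.of k)) [LocallyOfFiniteType f]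
    (η : Spec (CommRingCat.of K) ⟶ X) (hη : IsGen η)
    (hηf : η ≫ f = Spec.map (CommRingCat.ofHom (algebraMap k K)))
    {I : Type} (Y : I → Scheme.{0}) (π : ∀ i, Y i ⟶ X) (hft : ∀ i, LocallyOfFiniteType (π i))
    (hiso : ∀ i, ∃ W : X.Opens, genericPoint X ∈ W ∧ IsIso (π i ∣_ W))
    (P : ∀ i, (Y i).Opens)
    (h : ∀ (V : ValuationSubring K) (c : Spec (CommRingCat.of V) ⟶ X), incV V ≫ c = η →
      ∃ i, ∃ c' : Spec (CommRingCat.of V) ⟶ Y i, c' ≫ π i = c ∧ c' (cpt V) ∈ P i)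
    (U : X.Opens) (hU : IsAffineOpen U) :
    ∃ J : Finset I, ∀ (V : ValuationSubring K) (c : Spec (CommRingCat.of V) ⟶ X),
      incV V ≫ c = η → c (cpt V) ∈ U →
      ∃ i ∈ J, ∃ c' : Spec (CommRingCat.of V) ⟶ Y i, c' ≫ π i = c ∧ c' (cpt V) ∈ P i := by
  classical
  by_cases hne : (U : Set X).Nonempty
  swap
  · exact ⟨∅, fun V c _ hcU => absurd ⟨_, hcU⟩ hne⟩
  have hgU : genericPoint X ∈ U :=
    ((genericPoint_spec X).mem_open_set_iff U.isOpen).mpr (by simpa using hne)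
  obtain ⟨φ, hφ⟩ := factor_affine U hU (R := K) η (by rw [LU2G.IsGen.range hη]; exact hgU)
  -- the centres on `U`
  have hcen : ∀ V : ValuationSubring K, (∀ b ∈ Set.range φ, b ∈ V) →
      ∃ c : Spec (CommRingCat.of V) ⟶ X, incV V ≫ c = η ∧ c (cpt V) ∈ U := by
    intro V hV
    let φ' : Γ(X, U) →+* V := φ.codRestrict V fun a => hV _ ⟨a, rfl⟩
    refine ⟨Spec.map (CommRingCat.ofHom φ') ≫ hU.fromSpec, ?_, fromSpec_mem U hU φ' _⟩
    rw [← hφ, ← Category.assoc, ← Spec.map_comp]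
    rfl
  have hcen' : ∀ (V : ValuationSubring K) (c : Spec (CommRingCat.of V) ⟶ X), incV V ≫ c = η →
      c (cpt V) ∈ U → ∀ b ∈ Set.range φ, b ∈ V := by
    rintro V c hc hcU _ ⟨a, rfl⟩
    obtain ⟨θ, hθ⟩ := factor_affine U hU c hcU
    have h1 : Spec.map (CommRingCat.ofHom φ) =
        Spec.map (CommRingCat.ofHom ((algebraMap V K).comp θ)) := by
      rw [← cancel_mono hU.fromSpec, hφ, ← hc, ← hθ, ← Category.assoc, ← Spec.map_comp]
      rfl
    have h2 : φ = (algebraMap V K).comp θ :=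
      congrArg CommRingCat.Hom.hom (Spec.map_injective h1)
    rw [h2]
    exact (θ a).2
  -- the index set of the conditions
  let T : Type := { t : Set K × I // t.1.Finite ∧ ∀ V : ValuationSubring K,
    (∀ b ∈ Set.range φ, b ∈ V) → (∀ a ∈ t.1, a ∈ V) → ∀ c : Spec (CommRingCat.of V) ⟶ X,
      incV V ≫ c = η → c (cpt V) ∈ U → ∃ c' : Spec (CommRingCat.of V) ⟶ Y t.2,
        c' ≫ π t.2 = c ∧ c' (cpt V) ∈ P t.2 }
  obtain ⟨J, hJ⟩ := exists_finset (I := T) (Set.range φ) (fun t => t.1.1) (fun t => t.2.1) (by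
    intro V hV
    obtain ⟨c, hc, hcU⟩ := hcen V hV
    obtain ⟨i, c', hc', hP⟩ := h V c hc
    obtain ⟨W, hW, hWiso⟩ := hiso i
    have hft' := hft i
    have hηi : (incV V ≫ c') ≫ π i ≫ f = Spec.map (CommRingCat.ofHom (algebraMap k K)) := by
      rw [Category.assoc, reassoc_of% hc', ← hηf, ← hc, Category.assoc]
    obtain ⟨A, hA, hAV, hAll⟩ := exists_chart (π i ≫ f) (incV V ≫ c') hηi (P i ⊓ π i ⁻¹ᵁ U) V c'
      rfl ⟨hP, by
        change π i (c' (cpt V)) ∈ U
        have e1 : π i (c' (cpt V)) = (c' ≫ π i) (cpt V) := rfl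
        rw [e1, hc']
        exact hcU⟩
    refine ⟨⟨(A, i), hA, ?_⟩, hAV⟩
    intro V' hV' hAV' d hd hdU
    obtain ⟨d', hd', hdP⟩ := hAll V' (const_mem f η hηf V' d hd) hAV'
    refine ⟨d', ?_, hdP.1⟩
    refine eq_of_affine U hU V' _ _ hdP.2 hdU ?_
    rw [← Category.assoc, hd', Category.assoc, hc', hc, hd])
  refine ⟨J.image fun t => t.1.2, fun V c hc hcU => ?_⟩
  obtain ⟨t, ht, hta⟩ := hJ V (hcen' V c hc hcU)
  exact ⟨t.1.2, Finset.mem_image_of_mem _ ht, t.2.2 V (hcen' V c hc hcU) hta c hc hcU⟩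

/-- QC2. -/
theorem finite_system {k K : Type} [Field k] [Field K] [Algebra k K] (X : Scheme.{0})
    [IsIntegral X] [CompactSpace X] (f : X ⟶ Spec (CommRingCat.of k)) [LocallyOfFiniteType f]
    (η : Spec (CommRingCat.of K) ⟶ X) (hη : IsGen η)
    (hηf : η ≫ f = Spec.map (CommRingCat.ofHom (algebraMap k K)))
    {I : Type} (Y : I → Scheme.{0}) (π : ∀ i, Y i ⟶ X) (hft : ∀ i, LocallyOfFiniteType (π i))
    (hiso : ∀ i, ∃ W : X.Opens, genericPoint X ∈ W ∧ IsIso (π i ∣_ W))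
    (P : ∀ i, (Y i).Opens)
    (h : ∀ (V : ValuationSubring K) (c : Spec (CommRingCat.of V) ⟶ X), incV V ≫ c = η →
      ∃ i, ∃ c' : Spec (CommRingCat.of V) ⟶ Y i, c' ≫ π i = c ∧ c' (cpt V) ∈ P i) :
    ∃ J : Finset I, ∀ (V : ValuationSubring K) (c : Spec (CommRingCat.of V) ⟶ X),
      incV V ≫ c = η →
      ∃ i ∈ J, ∃ c' : Spec (CommRingCat.of V) ⟶ Y i, c' ≫ π i = c ∧ c' (cpt V) ∈ P i := by
  classical
  have h1 : ∀ x : X, ∃ J : Finset I, ∃ U : X.Opens, x ∈ U ∧
      ∀ (V : ValuationSubring K) (c : Spec (CommRingCat.of V) ⟶ X),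
      incV V ≫ c = η → c (cpt V) ∈ U →
      ∃ i ∈ J, ∃ c' : Spec (CommRingCat.of V) ⟶ Y i, c' ≫ π i = c ∧ c' (cpt V) ∈ P i := by
    intro x
    obtain ⟨U, hU, hxU, -⟩ := exists_isAffineOpen_mem_and_subset (x := x) (U := ⊤)
      (Set.mem_univ _)
    obtain ⟨J, hJ⟩ := finite_affine X f η hη hηf Y π hft hiso P h U hU
    exact ⟨J, U, hxU, hJ⟩
  choose J U hxU hJ using h1
  obtain ⟨t, ht⟩ := isCompact_univ.elim_finite_subcover (fun x : X => (U x : Set X))
    (fun x => (U x).isOpen) (fun x _ => Set.mem_iUnion.2 ⟨x, hxU x⟩)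
  refine ⟨t.biUnion J, fun V c hc => ?_⟩
  have h2 := ht (Set.mem_univ (c (cpt V)))
  simp only [Set.mem_iUnion] at h2
  obtain ⟨x, hx, hcx⟩ := h2
  obtain ⟨i, hi, hi'⟩ := hJ x V c hc hcx
  exact ⟨i, Finset.mem_biUnion.2 ⟨x, hx, hi⟩, hi'⟩

end Pool.Agent.ALLQC
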