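import Pool.Agent.Lib.ALL_h67.QC2

/-!
# ALL, QCN: finite resolving systems for tuples of valuation rings
-/

set_option autoImplicit false

open AlgebraicGeometry CategoryTheory

namespace Pool.Agent.ALLQC

open Pool.Agent.LU1G (IsGen cpt incV SmoothAt factor_affine frac_affine)
open Pool.Agent.LU2G (const_mem gen_unique)

/-- QC1 for tuples. -/
theorem exists_finset_tuple {K : Type*} [Field K] {I ι : Type*} [Finite ι] (B : ι → Set K)
    (A : I → ι → Set K) (hA : ∀ i n, (A i n).Finite)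
    (h : ∀ V : ι → ValuationSubring K, (∀ n, ∀ b ∈ B n, b ∈ V n) →
      ∃ i, ∀ n, ∀ a ∈ A i n, a ∈ V n) :
    ∃ J : Finset I, ∀ V : ι → ValuationSubring K, (∀ n, ∀ b ∈ B n, b ∈ V n) →
      ∃ i ∈ J, ∀ n, ∀ a ∈ A i n, a ∈ V n := by
  classical
  by_contra hno
  push Not at hno
  choose W hWB hW using hno
  let U : Ultrafilter (Finset I) := Ultrafilter.of Filter.atTop
  have hU : (U : Filter (Finset I)) ≤ Filter.atTop := Ultrafilter.of_le _
  obtain ⟨i, hi⟩ := h (fun n => ulim U fun J => W J n) fun n b hb =>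
    (mem_ulim U (fun J => W J n) b).2 (Filter.Eventually.of_forall fun J => hWB J n b hb)
  have h1 : ∀ᶠ J in (U : Filter (Finset I)), ∀ n, ∀ a ∈ A i n, a ∈ W J n :=
    Filter.eventually_all.2 fun n => (hA i n).eventually_all.2 fun a ha =>
      (mem_ulim U (fun J => W J n) a).1 (hi n a ha)
  have h2 : ∀ᶠ J in (U : Filter (Finset I)), i ∈ J :=
    hU ((Filter.eventually_ge_atTop ({i} : Finset I)).mono fun J hJ =>
      hJ (Finset.mem_singleton_self i))
  obtain ⟨J, hJ1, hJ2⟩ := (h1.and h2).exists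
  obtain ⟨n, a, ha, ha'⟩ := hW J i hJ2
  exact ha' (hJ1 n a ha)

/-- The centres on an affine open subset. -/
theorem exists_hom {K : Type} [Field K] (X : Scheme.{0}) [IsIntegral X]
    (η : Spec (CommRingCat.of K) ⟶ X) (hη : IsGen η)
    (U : X.Opens) (hU : IsAffineOpen U) (hne : (U : Set X).Nonempty) :
    ∃ φ : Γ(X, U) →+* K,
      (∀ V : ValuationSubring K, (∀ b ∈ Set.range φ, b ∈ V) →
        ∃ c : Spec (CommRingCat.of V) ⟶ X, incV V ≫ c = η ∧ c (cpt V) ∈ U) ∧
      ∀ (V : ValuationSubring K) (c : Spec (CommRingCat.of V) ⟶ X), incV V ≫ c = η →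
        c (cpt V) ∈ U → ∀ b ∈ Set.range φ, b ∈ V := by
  have hgU : genericPoint X ∈ U :=
    ((genericPoint_spec X).mem_open_set_iff U.isOpen).mpr (by simpa using hne)
  obtain ⟨φ, hφ⟩ := factor_affine U hU (R := K) η (by rw [LU2G.IsGen.range hη]; exact hgU)
  refine ⟨φ, ?_, ?_⟩
  · intro V hV
    let φ' : Γ(X, U) →+* V := φ.codRestrict V fun a => hV _ ⟨a, rfl⟩
    refine ⟨Spec.map (CommRingCat.ofHom φ') ≫ hU.fromSpec, ?_, fromSpec_mem U hU φ' _⟩
    rw [← hφ, ← Category.assoc, ← Spec.map_comp]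
    rfl
  · rintro V c hc hcU _ ⟨a, rfl⟩
    obtain ⟨θ, hθ⟩ := factor_affine U hU c hcU
    have h1 : Spec.map (CommRingCat.ofHom φ) =
        Spec.map (CommRingCat.ofHom ((algebraMap V K).comp θ)) := by
      rw [← cancel_mono hU.fromSpec, hφ, ← hc, ← hθ, ← Category.assoc, ← Spec.map_comp]
      rfl
    have h2 : φ = (algebraMap V K).comp θ :=
      congrArg CommRingCat.Hom.hom (Spec.map_injective h1)
    rw [h2]
    exact (θ a).2

/-- The lifts to `Y` of the centres of all valuation rings of a tuple are in `P`. -/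
def Good {K : Type} [Field K] {X Y : Scheme.{0}} (π : Y ⟶ X) (P : Y.Opens) {ι : Type}
    (V : ι → ValuationSubring K) (c : ∀ n, Spec (CommRingCat.of (V n)) ⟶ X) : Prop :=
  ∀ n, ∃ c' : Spec (CommRingCat.of (V n)) ⟶ Y, c' ≫ π = c n ∧ c' (cpt (V n)) ∈ P

/-- QCN for the valuation rings with a centre on affine open subsets. -/
theorem finite_affine_tuple {k K : Type} [Field k] [Field K] [Algebra k K] (X : Scheme.{0})
    [IsIntegral X] (f : X ⟶ Spec (CommRingCat.of k)) [LocallyOfFiniteType f]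
    (η : Spec (CommRingCat.of K) ⟶ X) (hη : IsGen η)
    (hηf : η ≫ f = Spec.map (CommRingCat.ofHom (algebraMap k K))) {ι : Type} [Finite ι]
    {I : Type} (Y : I → Scheme.{0}) (π : ∀ i, Y i ⟶ X) (hft : ∀ i, LocallyOfFiniteType (π i))
    (hiso : ∀ i, ∃ W : X.Opens, genericPoint X ∈ W ∧ IsIso (π i ∣_ W))
    (P : ∀ i, (Y i).Opens)
    (h : ∀ (V : ι → ValuationSubring K) (c : ∀ n, Spec (CommRingCat.of (V n)) ⟶ X),
      (∀ n, incV (V n) ≫ c n = η) → ∃ i, Good (π i) (P i) V c)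
    (U : ι → X.Opens) (hU : ∀ n, IsAffineOpen (U n)) :
    ∃ J : Finset I, ∀ (V : ι → ValuationSubring K) (c : ∀ n, Spec (CommRingCat.of (V n)) ⟶ X),
      (∀ n, incV (V n) ≫ c n = η) → (∀ n, c n (cpt (V n)) ∈ U n) →
      ∃ i ∈ J, Good (π i) (P i) V c := by
  classical
  by_cases hne : ∀ n, (U n : Set X).Nonempty
  swap
  · obtain ⟨n, hn⟩ := not_forall.1 hne
    exact ⟨∅, fun V c _ hcU => absurd ⟨_, hcU n⟩ hn⟩
  choose φ hcen hcen' using fun n => exists_hom X η hη (U n) (hU n) (hne n)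
  -- the index set of the conditions
  let T : Type := { t : (ι → Set K) × I // (∀ n, (t.1 n).Finite) ∧
    ∀ V : ι → ValuationSubring K, (∀ n, ∀ b ∈ Set.range (φ n), b ∈ V n) →
      (∀ n, ∀ a ∈ t.1 n, a ∈ V n) → ∀ c : ∀ n, Spec (CommRingCat.of (V n)) ⟶ X,
      (∀ n, incV (V n) ≫ c n = η) → (∀ n, c n (cpt (V n)) ∈ U n) → Good (π t.2) (P t.2) V c }
  obtain ⟨J, hJ⟩ := exists_finset_tuple (I := T) (fun n => Set.range (φ n)) (fun t => t.1.1)
    (fun t => t.2.1) (by
    intro V hV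
    choose c hc hcU using fun n => hcen n (V n) (hV n)
    obtain ⟨i, hi⟩ := h V c hc
    choose c' hc' hP using hi
    obtain ⟨W, hW, hWiso⟩ := hiso i
    have hft' := hft i
    have hgen : ∀ n m, incV (V n) ≫ c' n = incV (V m) ≫ c' m := by
      intro n m
      refine gen_unique (π i) W hW hWiso _ _ ?_ ?_
      · rw [Category.assoc, hc', hc]
        exact hη
      · rw [Category.assoc, hc', hc, Category.assoc, hc', hc]
    have hηi : ∀ n, (incV (V n) ≫ c' n) ≫ π i ≫ f =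
        Spec.map (CommRingCat.ofHom (algebraMap k K)) := by
      intro n
      rw [Category.assoc, reassoc_of% hc' n, ← hηf, ← hc n, Category.assoc]
    choose A hA hAV hAll using fun n => exists_chart (π i ≫ f) (incV (V n) ≫ c' n) (hηi n)
      (P i ⊓ π i ⁻¹ᵁ (U n)) (V n) (c' n) rfl ⟨hP n, by
        change π i (c' n (cpt (V n))) ∈ U n
        have e1 : π i (c' n (cpt (V n))) = (c' n ≫ π i) (cpt (V n)) := rfl
        rw [e1, hc']
        exact hcU n⟩
    refine ⟨⟨(A, i), hA, ?_⟩, hAV⟩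
    intro V' hV' hAV' d hd hdU n
    obtain ⟨d', hd', hdP⟩ := hAll n (V' n) (const_mem f η hηf (V' n) (d n) (hd n)) (hAV' n)
    refine ⟨d', ?_, hdP.1⟩
    refine eq_of_affine (U n) (hU n) (V' n) _ _ hdP.2 (hdU n) ?_
    rw [← Category.assoc, hd', Category.assoc, hc', hc, hd])
  refine ⟨J.image fun t => t.1.2, fun V c hc hcU => ?_⟩
  obtain ⟨t, ht, hta⟩ := hJ V fun n => hcen' n (V n) (c n) (hc n) (hcU n)
  exact ⟨t.1.2, Finset.mem_image_of_mem _ ht,
    t.2.2 V (fun n => hcen' n (V n) (c n) (hc n) (hcU n)) hta c hc hcU⟩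

/-- QCN: finite resolving systems for tuples of valuation rings. -/
theorem finite_system_tuple {k K : Type} [Field k] [Field K] [Algebra k K] (X : Scheme.{0})
    [IsIntegral X] [CompactSpace X] (f : X ⟶ Spec (CommRingCat.of k)) [LocallyOfFiniteType f]
    (η : Spec (CommRingCat.of K) ⟶ X) (hη : IsGen η)
    (hηf : η ≫ f = Spec.map (CommRingCat.ofHom (algebraMap k K))) {ι : Type} [Finite ι]
    {I : Type} (Y : I → Scheme.{0}) (π : ∀ i, Y i ⟶ X) (hft : ∀ i, LocallyOfFiniteType (π i))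
    (hiso : ∀ i, ∃ W : X.Opens, genericPoint X ∈ W ∧ IsIso (π i ∣_ W))
    (P : ∀ i, (Y i).Opens)
    (h : ∀ (V : ι → ValuationSubring K) (c : ∀ n, Spec (CommRingCat.of (V n)) ⟶ X),
      (∀ n, incV (V n) ≫ c n = η) → ∃ i, Good (π i) (P i) V c) :
    ∃ J : Finset I, ∀ (V : ι → ValuationSubring K) (c : ∀ n, Spec (CommRingCat.of (V n)) ⟶ X),
      (∀ n, incV (V n) ≫ c n = η) → ∃ i ∈ J, Good (π i) (P i) V c := by
  classical
  obtain ⟨t, ht⟩ : ∃ t : Finset X, ∀ x : X, ∃ y ∈ t, x ∈ (exists_isAffineOpen_mem_and_subset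
      (x := y) (U := ⊤) (Set.mem_univ _)).choose := by
    obtain ⟨t, ht⟩ := isCompact_univ.elim_finite_subcover
      (fun y : X => ((exists_isAffineOpen_mem_and_subset
        (x := y) (U := ⊤) (Set.mem_univ _)).choose : Set X))
      (fun y => ((exists_isAffineOpen_mem_and_subset
        (x := y) (U := ⊤) (Set.mem_univ _)).choose).isOpen)
      (fun y _ => Set.mem_iUnion.2 ⟨y, (exists_isAffineOpen_mem_and_subset
        (x := y) (U := ⊤) (Set.mem_univ _)).choose_spec.2.1⟩)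
    refine ⟨t, fun x => ?_⟩
    have h2 := ht (Set.mem_univ x)
    simp only [Set.mem_iUnion] at h2
    obtain ⟨y, hy, hxy⟩ := h2
    exact ⟨y, hy, hxy⟩
  choose J hJ using fun u : ι → t => finite_affine_tuple X f η hη hηf Y π hft hiso P h
    (fun n => (exists_isAffineOpen_mem_and_subset (x := (u n : X)) (U := ⊤)
      (Set.mem_univ _)).choose)
    (fun n => (exists_isAffineOpen_mem_and_subset (x := (u n : X)) (U := ⊤)
      (Set.mem_univ _)).choose_spec.1)
  have := Fintype.ofFinite (ι → t)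
  refine ⟨Finset.univ.biUnion J, fun V c hc => ?_⟩
  choose y hy hcy using fun n => ht (c n (cpt (V n)))
  obtain ⟨i, hi, hi'⟩ := hJ (fun n => ⟨y n, hy n⟩) V c hc hcy
  exact ⟨i, Finset.mem_biUnion.2 ⟨_, Finset.mem_univ _, hi⟩, hi'⟩

end Pool.Agent.ALLQC
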