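import Pool.Agent.Lib.ALL_h67.UProd
import Pool.Agent.Lib.ALL_h67.QC2

/-!
# ALL, QC4b: quasi-compactness for coverings by schemes of finite type
-/

set_option autoImplicit false

open AlgebraicGeometry CategoryTheory Limits

namespace Pool.Agent.ALLQC

open Pool.Agent.LU1G (factor_affine)

/-- The morphism `c` lifts to `(U, q)`. -/
def Lifts {X : Scheme.{0}} {V : Type} [CommRing V] (c : Spec (CommRingCat.of V) ⟶ X)
    {U : Scheme.{0}} (q : U ⟶ X) : Prop := ∃ c' : Spec (CommRingCat.of V) ⟶ U, c' ≫ q = c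

/-- A finitely presented algebra in terms of equations. -/
theorem exists_pres {A B : Type} [CommRing A] [CommRing B] [Algebra A B]
    (h : Algebra.FinitePresentation A B) :
    ∃ (t : Σ n : ℕ, Finset (MvPolynomial (Fin n) A)) (ρ : MvPolynomial (Fin t.1) A →ₐ[A] B),
      Function.Surjective ρ ∧ RingHom.ker ρ.toRingHom = Ideal.span (t.2 : Set _) := by
  obtain ⟨n, ρ, hρ, hker⟩ := h.out
  obtain ⟨F, hF⟩ := hker
  exact ⟨⟨n, F⟩, ρ, hρ, hF.symm⟩

/-- QC4b over an affine open subset. -/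
theorem qc_affine {X : Scheme.{0}} [IsLocallyNoetherian X]
    (P : (U : Scheme.{0}) → (U ⟶ X) → Prop)
    (h : ∀ (V : Type) [CommRing V] [IsDomain V] [ValuationRing V]
      (c : Spec (CommRingCat.of V) ⟶ X), ∃ (U : Scheme.{0}) (q : U ⟶ X), P U q ∧
        LocallyOfFiniteType q ∧ Lifts c q) (W : X.Opens) (hW : IsAffineOpen W) :
    ∃ J : Finset (Σ U : Scheme.{0}, (U ⟶ X)), (∀ t ∈ J, P t.1 t.2) ∧
      ∀ (V : Type) [CommRing V] [IsDomain V] [ValuationRing V]
        (c : Spec (CommRingCat.of V) ⟶ X), c (IsLocalRing.closedPoint V) ∈ W →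
        ∃ t ∈ J, Lifts c t.2 := by
  classical
  let A : Type := Γ(X, W)
  let _ : CommRing A := inferInstanceAs (CommRing Γ(X, W))
  let T : Set (Σ n : ℕ, Finset (MvPolynomial (Fin n) A)) :=
    {t | ∃ (U : Scheme.{0}) (q : U ⟶ X), P U q ∧
      ∀ (V : Type) [CommRing V] (φ : A →+* V), Sol φ t →
        Lifts (Spec.map (CommRingCat.ofHom φ) ≫ hW.fromSpec) q}
  obtain ⟨J, hJT, hJ⟩ := qc_ring T (by
    intro R
    obtain ⟨U, q, hP, hft, c', hc'⟩ := h R.V (Spec.map (CommRingCat.ofHom R.φ) ≫ hW.fromSpec)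
    let z : U := c' (IsLocalRing.closedPoint R.V)
    have hz : z ∈ q ⁻¹ᵁ W := by
      change q (c' (IsLocalRing.closedPoint R.V)) ∈ W
      have e1 : q (c' (IsLocalRing.closedPoint R.V)) =
        (c' ≫ q) (IsLocalRing.closedPoint R.V) := rfl
      rw [e1, hc']
      exact fromSpec_mem W hW R.φ _
    obtain ⟨W', hW', hzW', hle⟩ := exists_isAffineOpen_mem_and_subset (U := q ⁻¹ᵁ W) (x := z) hz
    obtain ⟨ψ, hψ⟩ := factor_affine W' hW' c' hzW'
    let B : Type := Γ(U, W')
    let _ : CommRing B := inferInstanceAs (CommRing Γ(U, W'))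
    let q' : A →+* B := (q.appLE W W' hle).hom
    let _ : Algebra A B := q'.toAlgebra
    have hfp : Algebra.FinitePresentation A B := by
      have h1 : LocallyOfFinitePresentation q := inferInstance
      have h2 := h1.1 hW hW' hle
      exact h2
    obtain ⟨t, ρ, hρ, hker⟩ := exists_pres hfp
    have hsq : Spec.map (CommRingCat.ofHom q') ≫ hW.fromSpec = hW'.fromSpec ≫ q := by
      exact IsAffineOpen.SpecMap_appLE_fromSpec q hW hW' hle
    have hψq : ψ.comp q' = R.φ := by
      have h1 : Spec.map (CommRingCat.ofHom (ψ.comp q')) = Spec.map (CommRingCat.ofHom R.φ) := by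
        rw [← cancel_mono hW.fromSpec, ← hc', ← hψ, Category.assoc, ← hsq, ← Category.assoc,
          ← Spec.map_comp]
        rfl
      exact congrArg CommRingCat.Hom.hom (Spec.map_injective h1)
    refine ⟨t, ⟨U, q, hP, ?_⟩, ?_⟩
    · intro V _ φ hsol
      obtain ⟨b, hb⟩ := hsol
      let θ : MvPolynomial (Fin t.1) A →+* V := MvPolynomial.eval₂Hom φ b
      have hθ : RingHom.ker ρ.toRingHom ≤ RingHom.ker θ := by
        rw [hker, Ideal.span_le]
        intro f hf
        exact hb f hf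
      let θ' : B →+* V := (RingHom.liftOfSurjective ρ.toRingHom hρ ⟨θ, hθ⟩)
      have hθ' : θ'.comp q' = φ := by
        ext a
        have h1 : q' a = ρ.toRingHom (MvPolynomial.C a) := by
          have h2 : ρ (algebraMap A _ a) = algebraMap A B a := ρ.commutes a
          exact h2.symm
        rw [RingHom.comp_apply, h1]
        have h3 : θ' (ρ.toRingHom (MvPolynomial.C a)) = θ (MvPolynomial.C a) :=
          RingHom.liftOfRightInverse_comp_apply _ _ _ ⟨θ, hθ⟩ _
        rw [h3]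
        exact MvPolynomial.eval₂_C φ b a
      refine ⟨Spec.map (CommRingCat.ofHom θ') ≫ hW'.fromSpec, ?_⟩
      rw [Category.assoc, ← hsq, ← Category.assoc, ← Spec.map_comp]
      have h4 : CommRingCat.ofHom q' ≫ CommRingCat.ofHom θ' = CommRingCat.ofHom φ := by
        rw [← hθ']
        rfl
      rw [h4]
    · refine ⟨fun i => ψ (ρ (MvPolynomial.X i)), ?_⟩
      intro f hf
      have h1 : MvPolynomial.eval₂ R.φ (fun i => ψ (ρ (MvPolynomial.X i))) f = ψ (ρ f) := by
        have h2 : (MvPolynomial.eval₂Hom R.φ fun i => ψ (ρ (MvPolynomial.X i))) =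
            ψ.comp ρ.toRingHom := by
          apply MvPolynomial.ringHom_ext
          · intro a
            rw [MvPolynomial.eval₂Hom_C, ← hψq]
            have h3 : ρ (algebraMap A _ a) = algebraMap A B a := ρ.commutes a
            exact congrArg ψ h3.symm
          · intro i
            rw [MvPolynomial.eval₂Hom_X']
            rfl
        exact DFunLike.congr_fun h2 f
      rw [h1]
      have h4 : f ∈ RingHom.ker ρ.toRingHom := by
        rw [hker]
        exact Ideal.subset_span hf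
      have h5 : ρ f = 0 := h4
      rw [h5, map_zero])
  choose U q hP hlift using fun t : J => hJT t.1 t.2
  refine ⟨Finset.univ.image fun t : J => ⟨U t, q t⟩, ?_, ?_⟩
  · intro s hs
    obtain ⟨t, -, rfl⟩ := Finset.mem_image.1 hs
    exact hP t
  · intro V _ _ _ c hc
    obtain ⟨φ, hφ⟩ := factor_affine W hW c hc
    obtain ⟨t, ht, hsol⟩ := hJ ⟨V, φ⟩
    refine ⟨⟨U ⟨t, ht⟩, q ⟨t, ht⟩⟩, Finset.mem_image_of_mem _ (Finset.mem_univ (⟨t, ht⟩ : J)), ?_⟩
    rw [← hφ]
    exact hlift ⟨t, ht⟩ V φ hsol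

/-- QC4b: if every morphism from the spectrum of a valuation ring lifts to a scheme of finite type
over `X` with the property `P`, finitely many of them are enough. -/
theorem qc_scheme {X : Scheme.{0}} [IsLocallyNoetherian X] [CompactSpace X]
    (P : (U : Scheme.{0}) → (U ⟶ X) → Prop)
    (h : ∀ (V : Type) [CommRing V] [IsDomain V] [ValuationRing V]
      (c : Spec (CommRingCat.of V) ⟶ X), ∃ (U : Scheme.{0}) (q : U ⟶ X), P U q ∧
        LocallyOfFiniteType q ∧ Lifts c q) :
    ∃ (M : ℕ) (U : Fin M → Scheme.{0}) (q : ∀ j, U j ⟶ X), (∀ j, P (U j) (q j)) ∧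
      ∀ (V : Type) [CommRing V] [IsDomain V] [ValuationRing V]
        (c : Spec (CommRingCat.of V) ⟶ X), ∃ j, Lifts c (q j) := by
  classical
  have h1 : ∀ x : X, ∃ J : Finset (Σ U : Scheme.{0}, (U ⟶ X)), ∃ W : X.Opens, x ∈ W ∧
      (∀ t ∈ J, P t.1 t.2) ∧ ∀ (V : Type) [CommRing V] [IsDomain V] [ValuationRing V]
        (c : Spec (CommRingCat.of V) ⟶ X), c (IsLocalRing.closedPoint V) ∈ W →
        ∃ t ∈ J, Lifts c t.2 := by
    intro x
    obtain ⟨W, hW, hxW, -⟩ := exists_isAffineOpen_mem_and_subset (x := x) (U := ⊤)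
      (Set.mem_univ _)
    obtain ⟨J, hJ, hJ'⟩ := qc_affine P h W hW
    exact ⟨J, W, hxW, hJ, hJ'⟩
  choose J W hxW hJP hJ using h1
  obtain ⟨s, hs⟩ := isCompact_univ.elim_finite_subcover (fun x : X => (W x : Set X))
    (fun x => (W x).isOpen) (fun x _ => Set.mem_iUnion.2 ⟨x, hxW x⟩)
  let F : Finset (Σ U : Scheme.{0}, (U ⟶ X)) := s.biUnion J
  let e : Fin F.card ≃ F := F.equivFin.symm
  refine ⟨F.card, fun j => (e j).1.1, fun j => (e j).1.2, fun j => ?_, ?_⟩
  · obtain ⟨x, -, hx⟩ := Finset.mem_biUnion.1 (e j).2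
    exact hJP x _ hx
  · intro V _ _ _ c
    have h2 := hs (Set.mem_univ (c (IsLocalRing.closedPoint V)))
    simp only [Set.mem_iUnion] at h2
    obtain ⟨x, hx, hcx⟩ := h2
    obtain ⟨t, ht, hl⟩ := hJ x V c hcx
    have key : ∀ j, e j = ⟨t, Finset.mem_biUnion.2 ⟨x, hx, ht⟩⟩ → Lifts c (e j).1.2 := by
      intro j hj
      rw [hj]
      exact hl
    exact ⟨e.symm _, key _ (e.apply_symm_apply _)⟩

end Pool.Agent.ALLQC
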