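import Pool.Agent.Lib.ALL_h67.Factor
import Pool.Agent.Lib.ALL_h26.FinB

/-!
# ALL, QC4: coverings by smooth schemes for the topology defined by valuation rings
-/

set_option autoImplicit false

open AlgebraicGeometry CategoryTheory Limits

namespace Pool.Agent.ALLQC

open Pool.Agent.LU1G (range_subset_of_closedPoint)
open Pool.Agent.LU2G (consts IsSmoothAt)
open Pool.Agent.ALLF (RealCaseFull exists_smooth_centres_all)

/-- QC4: finitely many smooth schemes, open in proper birational modifications of closed integral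
subschemes, are enough to lift all morphisms from the spectra of valuation rings. -/
theorem exists_rh_cover {k : Type} [Field k] (X : Scheme.{0}) [CompactSpace X]
    (f : X ⟶ Spec (CommRingCat.of k)) [LocallyOfFiniteType f]
    (hall : ∀ (Z : Scheme.{0}) (ι : Z ⟶ X), IsClosedImmersion ι → ∀ (_ : IsIntegral Z)
      (V : ValuationSubring Z.functionField) (c : Spec (CommRingCat.of V) ⟶ Z),
      Spec.map (CommRingCat.ofHom (algebraMap V Z.functionField)) ≫ c =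
        Z.fromSpecStalk (genericPoint Z) →
      ∃ (Y : Scheme.{0}) (π : Y ⟶ Z), IsIntegral Y ∧ IsProper π ∧
        (∀ W : Z.Opens, (∀ x ∈ W, IsSmoothAt (ι ≫ f) x) → IsIso (π ∣_ W)) ∧
        ∃ c' : Spec (CommRingCat.of V) ⟶ Y, c' ≫ π = c ∧
          IsSmoothAt (π ≫ ι ≫ f) (c' (IsLocalRing.closedPoint V))) :
    ∃ (M : ℕ) (Z Y : Fin M → Scheme.{0}) (ι : ∀ j, Z j ⟶ X) (π : ∀ j, Y j ⟶ Z j)
      (U : ∀ j, (Y j).Opens),
      (∀ j, IsClosedImmersion (ι j) ∧ IsIntegral (Z j) ∧ IsIntegral (Y j) ∧ IsProper (π j) ∧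
        (∀ W : (Z j).Opens, (∀ x ∈ W, IsSmoothAt (ι j ≫ f) x) → IsIso (π j ∣_ W)) ∧
        AlgebraicGeometry.Smooth ((U j).ι ≫ π j ≫ ι j ≫ f)) ∧
      ∀ (V : Type) [CommRing V] [IsDomain V] [ValuationRing V]
        (c : Spec (CommRingCat.of V) ⟶ X), ∃ j, ∃ c' : Spec (CommRingCat.of V) ⟶ (U j).toScheme,
          c' ≫ (U j).ι ≫ π j ≫ ι j = c := by
  have hln : IsLocallyNoetherian X := LocallyOfFiniteType.isLocallyNoetherian f
  let P : (T : Scheme.{0}) → (T ⟶ X) → Prop := fun T q =>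
    ∃ (Z Y : Scheme.{0}) (ι : Z ⟶ X) (π : Y ⟶ Z) (U : Y.Opens) (e : T ≅ U.toScheme),
      q = e.hom ≫ U.ι ≫ π ≫ ι ∧ IsClosedImmersion ι ∧ IsIntegral Z ∧ IsIntegral Y ∧ IsProper π ∧
        (∀ W : Z.Opens, (∀ x ∈ W, IsSmoothAt (ι ≫ f) x) → IsIso (π ∣_ W)) ∧
        AlgebraicGeometry.Smooth (U.ι ≫ π ≫ ι ≫ f)
  obtain ⟨M, T, q, hP, hq⟩ := qc_scheme (X := X) P (by
    intro V _ _ _ c
    have hc : QuasiCompact c := inferInstance
    have hint : IsIntegral c.image := isIntegral_image c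
    obtain ⟨V₀, c₀, r, hc₀, hr⟩ := exists_factor V c.toImage
    obtain ⟨Y, π, hY, hπ, hiso, c', hc', U, hU, hs⟩ :=
      hall c.image c.imageι inferInstance hint V₀ c₀ hc₀
    refine ⟨U.toScheme, U.ι ≫ π ≫ c.imageι, ⟨c.image, Y, c.imageι, π, U, Iso.refl _, ?_,
      inferInstance, hint, hY, hπ, hiso, hs⟩, inferInstance, ?_⟩
    · simp
    · have h1 : Set.range (r ≫ c') ⊆ Set.range U.ι := by
        rw [Scheme.Opens.range_ι]
        rintro _ ⟨x, rfl⟩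
        exact range_subset_of_closedPoint c' U hU ⟨r x, rfl⟩
      refine ⟨IsOpenImmersion.lift U.ι (r ≫ c') h1, ?_⟩
      rw [← Category.assoc, IsOpenImmersion.lift_fac, Category.assoc, reassoc_of% hc',
        reassoc_of% hr, Scheme.Hom.toImage_imageι])
  choose Z Y ι π U e he hι hZ hY hπ hiso hs using hP
  refine ⟨M, Z, Y, ι, π, U, fun j => ⟨hι j, hZ j, hY j, hπ j, hiso j, hs j⟩, ?_⟩
  intro V _ _ _ c
  obtain ⟨j, c', hc'⟩ := hq V c
  refine ⟨j, c' ≫ (e j).hom, ?_⟩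
  rw [Category.assoc, ← he j, hc']

/-- QC4 in large characteristic. -/
theorem exists_rh_cover_all {b : ℕ → ℕ} (hb : Monotone b) (p : ℕ) (k : Type) [Field k]
    [IsAlgClosed k] (hreal : RealCaseFull b p k) (X : Scheme.{0}) [CompactSpace X]
    (f : X ⟶ Spec (CommRingCat.of k)) [LocallyOfFiniteType f] (n : ℕ)
    (hn : ∀ (Z : Scheme.{0}) (ι : Z ⟶ X) (_ : IsClosedImmersion ι) (_ : IsIntegral Z),
      @Algebra.trdeg k Z.functionField _ _ (consts (ι ≫ f)).toAlgebra ≤ n) (hnp : b n < p) :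
    ∃ (M : ℕ) (Z Y : Fin M → Scheme.{0}) (ι : ∀ j, Z j ⟶ X) (π : ∀ j, Y j ⟶ Z j)
      (U : ∀ j, (Y j).Opens),
      (∀ j, IsClosedImmersion (ι j) ∧ IsIntegral (Z j) ∧ IsIntegral (Y j) ∧ IsProper (π j) ∧
        (∀ W : (Z j).Opens, (∀ x ∈ W, IsSmoothAt (ι j ≫ f) x) → IsIso (π j ∣_ W)) ∧
        AlgebraicGeometry.Smooth ((U j).ι ≫ π j ≫ ι j ≫ f)) ∧
      ∀ (V : Type) [CommRing V] [IsDomain V] [ValuationRing V]
        (c : Spec (CommRingCat.of V) ⟶ X), ∃ j, ∃ c' : Spec (CommRingCat.of V) ⟶ (U j).toScheme,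
          c' ≫ (U j).ι ≫ π j ≫ ι j = c := by
  refine exists_rh_cover X f fun Z ι hι hZ V c hc => ?_
  obtain ⟨m, hm⟩ := Cardinal.lt_aleph0.1 ((hn Z ι hι hZ).trans_lt Cardinal.natCast_lt_aleph0)
  have hmn : m ≤ n := by
    have h1 := hn Z ι hι hZ
    rw [hm] at h1
    exact_mod_cast h1
  obtain ⟨Y, π, hY, hπ, hiso, hc'⟩ := exists_smooth_centres_all hb p k hreal Z (ι ≫ f) m hm
    ((hb hmn).trans_lt hnp) 1 (fun _ => V) (fun _ => c) (fun _ => hc)
  refine ⟨Y, π, hY, hπ, fun W hW => hiso W fun i V' h _ hmem => hW _ hmem, ?_⟩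
  obtain ⟨c', h1, h2⟩ := hc' 0
  exact ⟨c', h1, h2⟩

end Pool.Agent.ALLQC
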