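import Mathlib

/-!
# ALL, QC4a: ultraproducts of valuation rings and quasi-compactness
-/

set_option autoImplicit false

namespace Pool.Agent.ALLQC

/-- A homomorphism from `A` to a valuation ring. -/
structure VR (A : Type) [CommRing A] where
  V : Type
  [cr : CommRing V]
  [dom : IsDomain V]
  [val : ValuationRing V]
  φ : A →+* V

attribute [instance] VR.cr VR.dom VR.val

section

variable {A : Type} [CommRing A] {J : Type} (U : Ultrafilter J) (R : J → VR A)

/-- The ideal of the families that vanish almost everywhere. -/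
def uIdeal : Ideal (∀ j, (R j).V) where
  carrier := {a | ∀ᶠ j in (U : Filter J), a j = 0}
  add_mem' := by
    intro a b ha hb
    refine (ha.and hb).mono fun j h => ?_
    rw [Pi.add_apply, h.1, h.2, add_zero]
  zero_mem' := Filter.Eventually.of_forall fun j => rfl
  smul_mem' := by
    intro c a ha
    refine ha.mono fun j h => ?_
    rw [smul_eq_mul, Pi.mul_apply, h, mul_zero]

theorem mem_uIdeal (a : ∀ j, (R j).V) :
    a ∈ uIdeal U R ↔ ∀ᶠ j in (U : Filter J), a j = 0 := Iff.rfl

instance : (uIdeal U R).IsPrime where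
  ne_top' := by
    rw [Ideal.ne_top_iff_one, mem_uIdeal]
    intro h
    obtain ⟨j, hj⟩ := h.exists
    exact one_ne_zero hj
  mem_or_mem' := by
    intro a b h
    rw [mem_uIdeal] at h
    rw [mem_uIdeal, mem_uIdeal, ← Ultrafilter.eventually_or]
    exact h.mono fun j hj => mul_eq_zero.1 hj

instance : ValuationRing ((∀ j, (R j).V) ⧸ uIdeal U R) where
  cond' := by
    intro a b
    obtain ⟨a, rfl⟩ := Ideal.Quotient.mk_surjective a
    obtain ⟨b, rfl⟩ := Ideal.Quotient.mk_surjective b
    choose c hc using fun j => ValuationRing.cond (a j) (b j)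
    refine ⟨Ideal.Quotient.mk _ c, ?_⟩
    rw [← map_mul, ← map_mul, Ideal.Quotient.eq, Ideal.Quotient.eq, mem_uIdeal, mem_uIdeal,
      ← Ultrafilter.eventually_or]
    refine Filter.Eventually.of_forall fun j => ?_
    rcases hc j with h | h
    · left
      rw [Pi.sub_apply, Pi.mul_apply, h, sub_self]
    · right
      rw [Pi.sub_apply, Pi.mul_apply, h, sub_self]

/-- The ultraproduct. -/
def uprod : VR A where
  V := (∀ j, (R j).V) ⧸ uIdeal U R
  φ := (Ideal.Quotient.mk _).comp (RingHom.pi fun j => (R j).φ)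

end

/-- The equations `t` have a solution in the `A`-algebra `V`. -/
def Sol {A V : Type} [CommRing A] [CommRing V] (φ : A →+* V)
    (t : Σ n : ℕ, Finset (MvPolynomial (Fin n) A)) : Prop :=
  ∃ b : Fin t.1 → V, ∀ f ∈ t.2, MvPolynomial.eval₂ φ b f = 0

theorem sol_uprod {A : Type} [CommRing A] {J : Type} (U : Ultrafilter J) (R : J → VR A)
    (t : Σ n : ℕ, Finset (MvPolynomial (Fin n) A)) (h : Sol (uprod U R).φ t) :
    ∀ᶠ j in (U : Filter J), Sol (R j).φ t := by
  obtain ⟨b, hb⟩ := h
  choose c hc using fun i => Ideal.Quotient.mk_surjective (I := uIdeal U R) (b i)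
  have h1 : ∀ f ∈ t.2, ∀ᶠ j in (U : Filter J),
      MvPolynomial.eval₂ (R j).φ (fun i => c i j) f = 0 := by
    intro f hf
    have h3 : Ideal.Quotient.mk (uIdeal U R)
        (MvPolynomial.eval₂ (RingHom.pi fun j => (R j).φ) c f) =
        MvPolynomial.eval₂ (uprod U R).φ b f := by
      rw [MvPolynomial.eval₂_comp_left]
      congr 1
      funext i
      exact hc i
    rw [hb f hf] at h3
    have h4 : MvPolynomial.eval₂ (RingHom.pi fun j => (R j).φ) c f ∈ uIdeal U R :=
      Ideal.Quotient.eq_zero_iff_mem.1 h3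
    rw [mem_uIdeal] at h4
    refine h4.mono fun j hj => ?_
    have h5 := MvPolynomial.eval₂_comp_left (Pi.evalRingHom (fun j => (R j).V) j)
      (RingHom.pi fun j => (R j).φ) c f
    have h6 : (Pi.evalRingHom (fun j => (R j).V) j)
        (MvPolynomial.eval₂ (RingHom.pi fun j => (R j).φ) c f) = 0 := hj
    rw [h6] at h5
    exact h5.symm
  have h2 : ∀ᶠ j in (U : Filter J), ∀ f ∈ t.2,
      MvPolynomial.eval₂ (R j).φ (fun i => c i j) f = 0 :=
    (Filter.eventually_all_finset t.2).2 h1
  exact h2.mono fun j hj => ⟨fun i => c i j, hj⟩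

/-- QC4a: if every homomorphism from `A` to a valuation ring extends to one of the finitely
presented algebras in `T`, finitely many of them are enough. -/
theorem qc_ring {A : Type} [CommRing A] (T : Set (Σ n : ℕ, Finset (MvPolynomial (Fin n) A)))
    (h : ∀ R : VR A, ∃ t ∈ T, Sol R.φ t) :
    ∃ J : Finset (Σ n : ℕ, Finset (MvPolynomial (Fin n) A)), (∀ t ∈ J, t ∈ T) ∧
      ∀ R : VR A, ∃ t ∈ J, Sol R.φ t := by
  classical
  have key : ∃ J : Finset T, ∀ R : VR A, ∃ t ∈ J, Sol R.φ t.1 := by
    by_contra hno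
    push Not at hno
    choose R hR using hno
    let U : Ultrafilter (Finset T) := Ultrafilter.of Filter.atTop
    have hU : (U : Filter (Finset T)) ≤ Filter.atTop := Ultrafilter.of_le _
    obtain ⟨t, ht, hsol⟩ := h (uprod U R)
    have h1 := sol_uprod U R t hsol
    have h2 : ∀ᶠ J in (U : Filter (Finset T)), (⟨t, ht⟩ : T) ∈ J :=
      hU ((Filter.eventually_ge_atTop ({⟨t, ht⟩} : Finset T)).mono fun J hJ =>
        hJ (Finset.mem_singleton_self _))
    obtain ⟨J, hJ1, hJ2⟩ := (h1.and h2).exists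
    exact hR J ⟨t, ht⟩ hJ2 hJ1
  obtain ⟨J, hJ⟩ := key
  refine ⟨J.image Subtype.val, ?_, ?_⟩
  · intro t ht
    obtain ⟨s, -, rfl⟩ := Finset.mem_image.1 ht
    exact s.2
  · intro R
    obtain ⟨t, ht, hs⟩ := hJ R
    exact ⟨t.1, Finset.mem_image_of_mem _ ht, hs⟩

end Pool.Agent.ALLQC
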